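import Mathlib

set_option autoImplicit false

namespace Pool.Agent.Results.MP_e69082_gt.Counter

open Set Filter Topology Function

def Minimal (G : Type) [Group G] [τ : TopologicalSpace G] : Prop :=
  ∀ σ : TopologicalSpace G, @IsTopologicalGroup G σ _ → @T2Space G σ → τ ≤ σ → σ = τ

abbrev F := ZMod 2
abbrev A := ℕ →₀ F
abbrev B2 := A →ₗ[F] A →ₗ[F] F
abbrev B3 := A →ₗ[F] B2

noncomputable def rt (t : B3) : B3 := (LinearMap.lflip.toLinearMap ∘ₗ t).flip
noncomputable def tens (a b : A) : B2 →+ F := AddMonoidHom.mk' (fun β => β a b) fun _ _ => rfl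
@[simp] lemma rt_ap (t : B3) (x y z : A) : rt t z x y = t x y z := rfl
@[simp] lemma tens_ap (a b : A) (β : B2) : tens a b β = β a b := rfl

@[ext] structure G where
  a : A
  u : B2 →+ F
  w : B3 → F

noncomputable instance : Mul G := ⟨fun g h => ⟨g.a + h.a, g.u + h.u + tens g.a h.a,
  fun t => g.w t + h.w t + h.u (t g.a) + g.u (rt t h.a)⟩⟩
noncomputable instance : One G := ⟨⟨0, 0, 0⟩⟩
noncomputable instance : Inv G := ⟨fun g => ⟨-g.a, -g.u + tens g.a g.a,
  fun t => -g.w t + g.u (t g.a) + g.u (rt t g.a) - t g.a g.a g.a⟩⟩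

@[simp] lemma ma (g h : G) : (g * h).a = g.a + h.a := rfl
@[simp] lemma mu (g h : G) (β) : (g * h).u β = g.u β + h.u β + β g.a h.a := rfl
@[simp] lemma mw (g h : G) (t) :
    (g * h).w t = g.w t + h.w t + h.u (t g.a) + g.u (rt t h.a) := rfl
@[simp] lemma oa : (1 : G).a = 0 := rfl
@[simp] lemma ou : (1 : G).u = 0 := rfl
@[simp] lemma ow : (1 : G).w = 0 := rfl
@[simp] lemma ia (g : G) : g⁻¹.a = -g.a := rfl
@[simp] lemma iu (g : G) (β) : g⁻¹.u β = -g.u β + β g.a g.a := rfl
@[simp] lemma iw (g : G) (t) :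
    g⁻¹.w t = -g.w t + g.u (t g.a) + g.u (rt t g.a) - t g.a g.a g.a := rfl

attribute [-simp] ZMod.neg_eq_self_mod_two

noncomputable instance : Group G := Group.ofLeftAxioms
  (fun g h k => G.ext (add_assoc _ _ _) (by ext; simp; ring) (by ext; simp; ring))
  (fun g => G.ext (by simp) (by ext; simp) (by ext; simp))
  fun g => G.ext (by simp) (by ext; simp) (by ext; simp; ring)

instance : TopologicalSpace A := ⊥
instance : DiscreteTopology A := ⟨rfl⟩
noncomputable def emb (g : G) : A × (B2 → F) × (B3 → F) := (g.a, g.u, g.w)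
noncomputable instance : TopologicalSpace G := .induced emb inferInstance
lemma ie : IsInducing emb := ⟨rfl⟩
lemma ca : Continuous G.a := continuous_fst.comp ie.continuous
lemma cu (β : B2) : Continuous fun g : G => g.u β :=
  (continuous_apply β).comp (continuous_fst.comp (continuous_snd.comp ie.continuous))
lemma cw (t : B3) : Continuous fun g : G => g.w t :=
  (continuous_apply t).comp (continuous_snd.comp (continuous_snd.comp ie.continuous))
lemma cu2 (f : A → B2) : Continuous fun p : G × G => p.2.u (f p.1.a) :=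
  (continuous_prod_of_discrete_left.2 fun a => cu (f a) :
    Continuous fun p : A × G => p.2.u (f p.1)).comp (ca.prodMap continuous_id)
lemma c2 (f : A → A → F) : Continuous fun p : G × G => f p.1.a p.2.a :=
  (continuous_of_discreteTopology (f := fun p : A × A => f p.1 p.2)).comp (ca.prodMap ca)

instance : IsTopologicalGroup G where
  continuous_mul := ie.continuous_iff.2 (((ca.comp continuous_fst).add (ca.comp continuous_snd)
    ).prodMk ((continuous_pi fun β => (((cu β).comp continuous_fst).add ((cu β).comp continuous_snd)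
      ).add (c2 fun a b => β a b)).prodMk (continuous_pi fun t => ((((cw t).comp continuous_fst).add
        ((cw t).comp continuous_snd)).add (cu2 t)).add ((cu2 (rt t)).comp continuous_swap))))
  continuous_inv := ie.continuous_iff.2 (ca.neg.prodMk ((continuous_pi fun β => (cu β).neg.add
    (continuous_of_discreteTopology (f := fun a => β a a).comp ca)).prodMk (continuous_pi fun t =>
      (((cw t).neg.add ((cu2 t).comp (continuous_id.prodMk continuous_id))).add ((cu2 (rt t)).comp
        (continuous_id.prodMk continuous_id))).sub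
          (continuous_of_discreteTopology (f := fun a => t a a a).comp ca))))

instance : T2Space G := (IsEmbedding.mk ie fun _ _ h => G.ext (congrArg (·.1) h)
  (DFunLike.coe_injective (congrArg (·.2.1) h)) (congrArg (·.2.2) h)).t2Space

lemma cpt (e : A) : IsCompact {g : G | g.a = e} := by
  have : range emb = ⋂ x, ⋂ y, {p | p.2.1 (x + y) = p.2.1 x + p.2.1 y} := by
    ext p
    simp only [mem_iInter]
    exact ⟨fun ⟨g, h⟩ x y => h ▸ map_add g.u x y, fun h => ⟨⟨_, AddMonoidHom.mk' _ h, _⟩, rfl⟩⟩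
  simpa [preimage, emb] using ie.isCompact_preimage (this ▸ isClosed_iInter fun x =>
    isClosed_iInter fun y => isClosed_eq (by fun_prop) (by fun_prop))
      ((isCompact_singleton (x := e)).prod isCompact_univ)

lemma z2 (a : F) : a = 0 ∨ a = 1 := by revert a; decide

lemma lin {F V : Type} [Field F] [AddCommGroup V] [Module F V] (S : Submodule F V) :
    ∃ (e : V) (t : V →ₗ[F] V →ₗ[F] V →ₗ[F] F), ∀ a ∈ S, (∀ x ∈ S, ∀ y ∈ S,
      t a x y - t a y x - (t x y a - t y x a) = 0) → ∃ c : F, a = c • e := by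
  classical
  let b := Module.Basis.ofVectorSpace F S
  obtain ⟨π, hπ⟩ := S.subtype.exists_leftInverse_of_injective S.ker_subtype
  have p1 (x : S) : π x = x := DFunLike.congr_fun hπ x
  rcases isEmpty_or_nonempty (Module.Basis.ofVectorSpaceIndex F S) with h | ⟨⟨i⟩⟩
  · exact ⟨0, 0, fun a ha _ => ⟨0, (congrArg Subtype.val (b.repr.injective (a₁ := ⟨a, ha⟩)
      (a₂ := 0) (Subsingleton.elim _ _))).trans (zero_smul _ _).symm⟩⟩
  refine ⟨b i, (b.toDual.compl₁₂ π π).compr₂ (.toSpanSingleton F _ (b.coord i ∘ₗ π)),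
    fun a ha h => ⟨b.repr ⟨a, ha⟩ i, congrArg Subtype.val (b.repr.injective (a₁ := ⟨a, ha⟩)
      (a₂ := b.repr ⟨a, ha⟩ i • b i) (Finsupp.ext fun n => ?_))⟩⟩
  by_cases e : n = i
  · simp [e]
  · simpa [p1, show π a = ⟨a, ha⟩ from p1 ⟨a, ha⟩, e, Ne.symm e, Module.Basis.toDual_apply_left]
      using h _ (b n).2 _ (b i).2

lemma cmw (g x y : G) (t : B3) : (g * (x * y * x⁻¹ * y⁻¹) * g⁻¹ * (x * y * x⁻¹ * y⁻¹)⁻¹).w t =
    t g.a x.a y.a - t g.a y.a x.a - (t x.a y.a g.a - t y.a x.a g.a) := by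
  have a2 (β) : (x * y * x⁻¹ * y⁻¹).u β = β x.a y.a - β y.a x.a := by
    simp
    ring
  have a1 : (x * y * x⁻¹ * y⁻¹).a = 0 := by simp
  generalize x * y * x⁻¹ * y⁻¹ = m at a1 a2
  simp [a1, a2]
  ring

lemma key {K : Type} [Group K] [TopologicalSpace K] [IsTopologicalGroup K] [T2Space K] (j : K →* G)
    (hc : ∀ D, IsCompact D → IsCompact (j ⁻¹' D)) : Tendsto j (𝓝 1) (𝓝 1) := by
  classical
  have h0 (D) (h : IsCompact D) (k : 1 ∉ D) : ∀ᶠ g in 𝓝 (1 : K), j g ∉ D :=
    (hc D h).isClosed.isOpen_compl.mem_nhds (by simpa using k)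
  suffices ∀ᶠ g in 𝓝 (1 : K), (j g).a = 0 from fun U hU => mem_map.2 <| by
    filter_upwards [this, h0 _ ((cpt 0).diff isOpen_interior) fun k =>
      k.2 (mem_interior_iff_mem_nhds.2 hU)] with g h1 h2
    exact by_contra fun k => h2 ⟨h1, fun e => k (interior_subset (s := U) e)⟩
  let S : Submodule F A :=
    { carrier := range fun g => (j g).a
      zero_mem' := ⟨1, by simp⟩
      add_mem' := fun ⟨g, h⟩ ⟨k, l⟩ => ⟨g * k, by simp [← h, ← l]⟩
      smul_mem' := fun c _ ⟨g, h⟩ => (z2 c).elim (fun e => ⟨1, by simp [e]⟩)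
        fun e => ⟨g, by simp [e, ← h]⟩ }
  obtain ⟨e, t, ht⟩ : ∃ (e : A) (t : B3), ∀ a ∈ S, (∀ x ∈ S, ∀ y ∈ S,
    t a x y - t a y x - (t x y a - t y x a) = 0) → ∃ c : F, a = c • e := lin S
  filter_upwards [show ∀ᶠ g in 𝓝 (1 : K), (j g).a = e → e = 0 from by
      by_cases k : e = 0
      · simp [k]
      · exact (h0 _ (cpt e) (Ne.symm k)).mono fun g a b => (a b).elim,
    (hc _ (cpt 0)).eventually_forall_of_forall_eventually (x₀ := (1 : K))
      (P := fun g m => j (g * m * g⁻¹ * m⁻¹) ∉ {g | g.a = 0} ∩ {g | g.w t = 1}) fun m _ =>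
        ((by fun_prop : Continuous fun z : K × K => z.1 * z.2 * z.1⁻¹ * z.2⁻¹).tendsto' (1, m) 1
          (by simp)).eventually (h0 _ ((cpt 0).inter_right (isClosed_eq (cw t) continuous_const))
            fun k => zero_ne_one k.2)] with g h1 h2
  obtain ⟨c, hc⟩ := ht _ ⟨g, rfl⟩ <| by
    rintro _ ⟨x, rfl⟩ _ ⟨y, rfl⟩
    refine (z2 _).resolve_right fun k => h2 (x * y * x⁻¹ * y⁻¹) (by simp) ⟨by simp, ?_⟩
    rw [← k]
    simp only [map_mul, map_inv]
    exact cmw _ _ _ _
  rcases z2 c with rfl | rfl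
  · simpa using hc
  · rw [one_smul] at hc
    exact hc.trans (h1 hc)

noncomputable def ρ : G →* Multiplicative (ℕ → F) :=
  MonoidHom.mk' (fun g => .ofAdd g.a) fun _ _ => rfl

theorem result : ∃ (G : Type) (_ : Group G) (_ : TopologicalSpace G) (N : Subgroup G)
    (_ : N.Normal), IsTopologicalGroup G ∧ T2Space G ∧
      (∀ H : Subgroup G, IsClosed (H : Set G) → Minimal H) ∧ IsCompact (N : Set G) ∧
        IsOpen (N : Set G) ∧ ¬ ∀ H : Subgroup (G ⧸ N), Minimal H := by
  have e : (ρ.ker : Set G) = {g | g.a = 0} := Set.ext fun g => by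
    simp [ρ, MonoidHom.mem_ker]
  have o : IsOpen (ρ.ker : Set G) := e ▸ (isOpen_discrete {0}).preimage ca
  refine ⟨G, inferInstance, inferInstance, ρ.ker, inferInstance, inferInstance, inferInstance,
    fun H hH σ a1 a2 a3 => ?_, e ▸ cpt 0, o, fun h => ?_⟩
  · refine IsTopologicalGroup.ext a1 H.instIsTopologicalGroupSubtypeMem (le_antisymm ?_
      (_root_.nhds_mono a3))
    refine (@key H _ σ a1 a2 H.subtype fun D hD => ?_).le_comap.trans (nhds_subtype _ _).ge
    exact image_id (H.subtype ⁻¹' D) ▸ @IsCompact.image _ _ instTopologicalSpaceSubtype σ _ id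
      (@IsClosedEmbedding.isCompact_preimage _ _ instTopologicalSpaceSubtype _ _
        hH.isClosedEmbedding_subtypeVal _ hD) (continuous_id_iff_le.2 a3)
  · haveI := QuotientGroup.discreteTopology o
    let φ := (QuotientGroup.kerLift ρ).comp (⊤ : Subgroup (G ⧸ ρ.ker)).subtype
    have e := h ⊤ _ (topologicalGroup_induced φ) (@IsEmbedding.t2Space _ _ (.induced φ _) _ _ _
      (@IsEmbedding.mk _ _ (.induced φ _) _ _ (@IsInducing.mk _ _ (.induced φ _) _ _ rfl)
        ((QuotientGroup.kerLift_injective ρ).comp Subtype.val_injective)))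
      continuous_of_discreteTopology.le_induced
    have : Tendsto (fun n => (⟨((⟨.single n 1, 0, 0⟩ : G) : G ⧸ ρ.ker), trivial⟩ :
        (⊤ : Subgroup (G ⧸ ρ.ker)))) atTop (𝓝 1) := by
      rw [← e, nhds_induced, tendsto_comap_iff, map_one]
      refine tendsto_pi_nhds.2 fun i => tendsto_const_nhds.congr'
        ((eventually_ne_atTop i).mono fun n hn => (Finsupp.single_eq_of_ne hn.symm).symm)
    rw [nhds_discrete, tendsto_pure] at this
    obtain ⟨n, hn⟩ := this.exists
    simpa [ρ, MonoidHom.mem_ker] using (QuotientGroup.eq_one_iff _).1 (congrArg Subtype.val hn)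

end Pool.Agent.Results.MP_e69082_gt.Counter
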